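import Pool.Agent.Q61.AC3

set_option autoImplicit false

open MeasureTheory Q61.Sob Q61.QGrad
open scoped ContDiff

namespace Pool.Agent.Results.MP_ac8703_an.NegativeSolutionBelowGamma1

/-- Negative answer to Q1, on the annulus `Ω = {e⁻¹ < |x| < e}` of the plane with `μ ≡ 1`: bounded data
`c ≥ 0`, `h`, a solution `u₀ ≥ 0` of `(P_0)` with `c u₀` not a.e. zero, some `0 < lam < γ₁`, and a solution `u`
of `(P_lam)` with `u < 0` everywhere in `Ω`. -/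
theorem result :
    ∃ c h u₀ u : En 2 → ℝ, ∃ G₀ G : En 2 → En 2, ∃ lam : ℝ,
      (∀ p : ENNReal, MemLp c p (volume.restrict {x | Real.exp (-1) < ‖x‖ ∧ ‖x‖ < Real.exp 1})) ∧
      (∀ p : ENNReal, MemLp h p (volume.restrict {x | Real.exp (-1) < ‖x‖ ∧ ‖x‖ < Real.exp 1})) ∧
      (∀ x ∈ {x : En 2 | Real.exp (-1) < ‖x‖ ∧ ‖x‖ < Real.exp 1}, 0 ≤ c x) ∧
      IsSolution {x | Real.exp (-1) < ‖x‖ ∧ ‖x‖ < Real.exp 1} 0 c (fun _ => 1) h u₀ G₀ ∧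
      (∀ x, 0 ≤ u₀ x) ∧
      (¬ ∀ᵐ x ∂(volume.restrict {x : En 2 | Real.exp (-1) < ‖x‖ ∧ ‖x‖ < Real.exp 1}), c x * u₀ x = 0) ∧
      0 < lam ∧ lam < gamma1 {x : En 2 | Real.exp (-1) < ‖x‖ ∧ ‖x‖ < Real.exp 1} c ∧
      IsSolution {x | Real.exp (-1) < ‖x‖ ∧ ‖x‖ < Real.exp 1} lam c (fun _ => 1) h u G ∧
      ∀ x ∈ {x : En 2 | Real.exp (-1) < ‖x‖ ∧ ‖x‖ < Real.exp 1}, u x < 0 := by
  refine ⟨Q61.AC.c, Q61.AC.h, Q61.AC.u0, Q61.AC.u1, gradient Q61.AC.u0, gradient Q61.AC.u1, 1,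
    fun p => memLp_of_contAt Q61.AC.Ω_open Q61.AC.Ω_bdd (fun x hx => Q61.AC.c_cont hx) p,
    fun p => memLp_of_contAt Q61.AC.Ω_open Q61.AC.Ω_bdd (fun x hx => Q61.AC.h_cont hx) p,
    fun x hx => Q61.AC.c_nonneg (subset_closure hx), Q61.AC.sol_u0, Q61.AC.u0_nonneg, Q61.AC.not_ae_zero,
    one_pos, ?_, Q61.AC.sol_u1, fun x hx => Q61.AC.u1_neg hx⟩
  exact lt_of_lt_of_le (by norm_num) Q61.AC.gamma_ge

end Pool.Agent.Results.MP_ac8703_an.NegativeSolutionBelowGamma1
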